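import Mathlib

set_option autoImplicit false

open SimpleGraph

namespace Pool.Agent.Results.MP_3d4fca_co.Example

/-- The ball of radius two (extended distance, infinite between components). -/
def ball2 {V : Type} (G : SimpleGraph V) (v : V) : Set V := {u | G.edist u v ≤ 2}

def TwinFree {V : Type} (G : SimpleGraph V) : Prop := ∀ u v, u ≠ v → ball2 G u ≠ ball2 G v

def Terminal {V : Type} (G : SimpleGraph V) : Prop :=
  TwinFree G ∧ ∀ x, ¬ TwinFree (G.induce {v | v ≠ x})

lemma le_two {V : Type} (G : SimpleGraph V) (u v : V) :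
    G.edist u v ≤ 2 ↔ u = v ∨ G.Adj u v ∨ ∃ w, G.Adj u w ∧ G.Adj w v := by
  constructor
  · intro h
    obtain ⟨p, hp⟩ := exists_walk_of_edist_ne_top (G := G) (u := u) (v := v)
      (ne_top_of_le_ne_top (by decide) h)
    rw [← hp] at h
    have h2 : p.length ≤ 2 := by exact_mod_cast h
    clear h hp
    rcases p with _ | ⟨a, _ | ⟨b, _ | ⟨c, q⟩⟩⟩
    · exact Or.inl rfl
    · exact Or.inr (Or.inl a)
    · exact Or.inr (Or.inr ⟨_, a, b⟩)
    · simp at h2
  · rintro (rfl | h | ⟨w, h1, h2⟩)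
    · simp
    · exact (edist_le (Walk.cons h Walk.nil)).trans (by simp)
    · exact (edist_le (Walk.cons h1 (Walk.cons h2 Walk.nil))).trans (by simp)

lemma tf_iff {V : Type} (G : SimpleGraph V) : TwinFree G ↔ ∀ u v, u ≠ v →
    ¬ ∀ z, (z = u ∨ G.Adj z u ∨ ∃ w, G.Adj z w ∧ G.Adj w u) ↔
      (z = v ∨ G.Adj z v ∨ ∃ w, G.Adj z w ∧ G.Adj w v) := by
  simp only [TwinFree, ball2, le_two, ne_eq, Set.ext_iff, Set.mem_ofPred_eq]

def W : SimpleGraph (Fin 9) where
  Adj u v := Nat.testBit 468111541026726368414482 (u.val * 9 + v.val) = true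
  symm := ⟨by decide +kernel⟩
  loopless := ⟨by decide +kernel⟩

instance : DecidableRel W.Adj := fun u v => by unfold W; infer_instance

instance (x : Fin 9) : DecidableRel (W.induce {v | v ≠ x}).Adj :=
  fun u v => (inferInstance : Decidable (W.Adj u.1 v.1))

theorem result : ∃ (n : ℕ) (G : SimpleGraph (Fin n)), G.Connected ∧ Terminal G ∧
    IsEmpty (G ≃g pathGraph 5) := by
  refine ⟨9, W, by decide +kernel, ⟨?_, ?_⟩, ⟨fun f => ?_⟩⟩
  · rw [tf_iff]
    decide +kernel
  · simp only [tf_iff]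
    decide +kernel
  · have := Fintype.card_congr f.toEquiv
    simp at this

end Pool.Agent.Results.MP_3d4fca_co.Example
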